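import Pool.Agent.H870R4.Noz.Stmts

/-!
Project H870-NOZ, task Near: a C^1 map of a rectangle close to the identity is invertible.
-/

set_option autoImplicit false

open MeasureTheory Set Filter Topology
open scoped ContDiff

namespace Pool.Agent.H970R3.Noz

open H870N

theorem isOpen_rect (L R h : ℝ) : IsOpen (rect L R h) := by
  have h0 : Continuous fun u : E2 => u 0 := by fun_prop
  have h1 : Continuous fun u : E2 => |u 1| := by fun_prop
  exact (isOpen_lt continuous_const h0).inter ((isOpen_lt h0 continuous_const).inter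
    (isOpen_lt h1 continuous_const))

theorem conv_lt {L x y a b : ℝ} (ha : 0 ≤ a) (hb : 0 ≤ b) (hab : a + b = 1) (hx : L < x)
    (hy : L < y) : L < a * x + b * y := by
  obtain rfl : b = 1 - a := by linarith
  rcases ha.eq_or_lt with rfl | ha'
  · linarith
  · have h1 := mul_pos ha' (sub_pos.2 hx)
    have h2 := mul_nonneg hb (sub_pos.2 hy).le
    nlinarith

theorem conv_gt {R x y a b : ℝ} (ha : 0 ≤ a) (hb : 0 ≤ b) (hab : a + b = 1) (hx : x < R)
    (hy : y < R) : a * x + b * y < R := by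
  have := conv_lt (L := -R) ha hb hab (neg_lt_neg hx) (neg_lt_neg hy)
  linarith

theorem convex_rect (L R h : ℝ) : Convex ℝ (rect L R h) := by
  intro u hu v hv a b ha hb hab
  obtain ⟨hu1, hu2, hu3⟩ := hu
  obtain ⟨hv1, hv2, hv3⟩ := hv
  rw [abs_lt] at hu3 hv3
  exact ⟨conv_lt ha hb hab hu1 hv1, conv_gt ha hb hab hu2 hv2,
    abs_lt.2 ⟨conv_lt ha hb hab hu3.1 hv3.1, conv_gt ha hb hab hu3.2 hv3.2⟩⟩

/-- a continuous linear map close to the identity is an equivalence -/
theorem exists_equiv (A : E2 →L[ℝ] E2) (hA : ‖A - ContinuousLinearMap.id ℝ E2‖ ≤ 1 / 2) :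
    ∃ e : E2 ≃L[ℝ] E2, (e : E2 →L[ℝ] E2) = A := by
  have hinj : Function.Injective (A : E2 →ₗ[ℝ] E2) := by
    rw [injective_iff_map_eq_zero]
    intro v hv
    have h1 : (A - ContinuousLinearMap.id ℝ E2) v = - v := by
      have : A v = 0 := hv
      simp [this]
    have h2 := (A - ContinuousLinearMap.id ℝ E2).le_opNorm v
    rw [h1, norm_neg] at h2
    have h3 : ‖v‖ ≤ 1 / 2 * ‖v‖ := h2.trans (mul_le_mul_of_nonneg_right hA (norm_nonneg v))
    have h4 : ‖v‖ = 0 := le_antisymm (by linarith [norm_nonneg v]) (norm_nonneg v)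
    exact norm_eq_zero.1 h4
  refine ⟨(LinearEquiv.ofInjectiveEndo (A : E2 →ₗ[ℝ] E2) hinj).toContinuousLinearEquiv, ?_⟩
  ext v
  rfl

theorem taskNear : TaskNear := by
  intro Y L R h hY hd
  set D : Set E2 := rect L R h with hD
  have hDo : IsOpen D := isOpen_rect L R h
  have hdiff : ∀ u ∈ D, DifferentiableAt ℝ Y u := fun u hu =>
    ((hY u hu).contDiffAt (hDo.mem_nhds hu)).differentiableAt (by norm_num)
  have hinj : InjOn Y D := by
    intro u hu v hv huv
    have hg := (convex_rect L R h).norm_image_sub_le_of_norm_fderiv_le (𝕜 := ℝ)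
      (f := fun x => Y x - x) (C := 1 / 2) (x := u) (y := v)
      (fun x hx => (hdiff x hx).sub differentiableAt_id) (fun x hx => by
        have : fderiv ℝ (fun x => Y x - x) x = fderiv ℝ Y x - ContinuousLinearMap.id ℝ E2 := by
          rw [fderiv_fun_sub (g := fun x => x) (hdiff x hx) differentiableAt_id, fderiv_fun_id]
        rw [this]
        exact hd x hx) hu hv
    simp only [huv] at hg
    have h1 : Y v - v - (Y v - u) = -(v - u) := by abel
    rw [h1, norm_neg] at hg
    have h2 : ‖v - u‖ = 0 := le_antisymm (by linarith [norm_nonneg (v - u)]) (norm_nonneg _)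
    exact (sub_eq_zero.1 (norm_eq_zero.1 h2)).symm
  set Xi : E2 → E2 := Function.invFunOn Y D with hXi
  have hleft : ∀ u ∈ D, Xi (Y u) = u := fun u hu => hinj.leftInvOn_invFunOn hu
  have key : ∀ (n : WithTop ℕ∞), n ≠ 0 → 1 ≤ n → ∀ W ⊆ D, IsOpen W → ContDiffOn ℝ n Y W →
      IsOpen (Y '' W) ∧ ContDiffOn ℝ n Xi (Y '' W) := by
    intro n hn hn1 W hWD hW hYW
    have main : ∀ u ∈ W, Y '' W ∈ 𝓝 (Y u) ∧ ContDiffAt ℝ n Xi (Y u) := by
      intro u hu
      have hc : ContDiffAt ℝ n Y u := (hYW u hu).contDiffAt (hW.mem_nhds hu)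
      obtain ⟨e, he⟩ := exists_equiv (fderiv ℝ Y u) (hd u (hWD hu))
      have hf' : HasFDerivAt Y (e : E2 →L[ℝ] E2) u := by
        rw [he]; exact (hdiff u (hWD hu)).hasFDerivAt
      set φ := hc.toOpenPartialHomeomorph Y hf' hn with hφ
      have hφc : ∀ x, φ x = Y x := fun x => by
        rw [hφ]; exact congrFun (hc.toOpenPartialHomeomorph_coe hf' hn) x
      have hsrc : u ∈ φ.source := hc.mem_toOpenPartialHomeomorph_source hf' hn
      have htgt : Y u ∈ φ.target := hc.image_mem_toOpenPartialHomeomorph_target hf' hn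
      have hsymm : φ.symm (Y u) = u := by
        have := φ.left_inv hsrc
        rwa [hφc] at this
      have hcont : ContinuousAt φ.symm (Y u) := φ.continuousAt_symm htgt
      have hev : ∀ᶠ y in 𝓝 (Y u), φ.symm y ∈ W ∧ y ∈ φ.target :=
        (hcont.eventually (by rw [hsymm]; exact hW.mem_nhds hu)).and (φ.open_target.mem_nhds htgt)
      have hev2 : ∀ᶠ y in 𝓝 (Y u), y ∈ Y '' W ∧ Xi y = φ.symm y := by
        filter_upwards [hev] with y hy
        have h1 : Y (φ.symm y) = y := by
          rw [← hφc]; exact φ.right_inv hy.2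
        exact ⟨⟨_, hy.1, h1⟩, by
          conv_lhs => rw [← h1]
          exact hleft _ (hWD hy.1)⟩
      refine ⟨hev2.mono fun y hy => hy.1, ?_⟩
      have hl : ContDiffAt ℝ n φ.symm (Y u) := hc.to_localInverse hf' hn
      exact hl.congr_of_eventuallyEq (hev2.mono fun y hy => hy.2)
    refine ⟨isOpen_iff_mem_nhds.2 ?_, ?_⟩
    · rintro _ ⟨u, hu, rfl⟩
      exact (main u hu).1
    · rintro _ ⟨u, hu, rfl⟩
      exact (main u hu).2.contDiffWithinAt
  refine ⟨Xi, hleft, (key 1 (by norm_num) le_rfl D le_rfl hDo hY).1,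
    (key 1 (by norm_num) le_rfl D le_rfl hDo hY).2, ?_⟩
  intro W hWD hW hYW
  exact key ∞ (by simp) (by simp) W hWD hW hYW

end Pool.Agent.H970R3.Noz
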